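import Mathlib

/-!
# Families of denominators of good rational approximations; Bohr sets and residue classes (helper90)
-/

set_option autoImplicit false

namespace Pool.Agent.K6.H90.GB

open Finset

/-! ## Denominators avoiding the multiples of the members of a sparse set -/

lemma card_dvd_le {q1 q2 : ℕ} (h : Nat.Coprime q1 q2) {d : ℕ} (hd : 0 < d) (U : ℕ) :
    ((Icc 1 U).filter (fun u => d ∣ u * q1 + q2)).card ≤ U / d + 1 := by
  classical
  have hinj : Set.InjOn (fun u => u / d) ((Icc 1 U).filter (fun u => d ∣ u * q1 + q2) : Finset ℕ) := by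
    intro u hu v hv huv
    simp only [coe_filter, Set.mem_ofPred_eq, mem_Icc] at hu hv
    simp only at huv
    have hu2 := hu.2
    have hv2 := hv.2
    have hcop : Nat.Coprime d q1 := by
      by_contra hcon
      obtain ⟨p, hp, hpd, hpq⟩ := Nat.Prime.not_coprime_iff_dvd.1 hcon
      have h1 : p ∣ u * q1 + q2 := hpd.trans hu2
      have h2 : p ∣ q2 := (Nat.dvd_add_right (hpq.mul_left u)).1 h1
      exact Nat.Prime.one_lt hp |>.ne' (Nat.eq_one_of_dvd_coprimes h hpq h2)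
    have h1 : (u : ℤ) ≡ v [ZMOD d] := by
      have h2 : ((d : ℤ)) ∣ (u : ℤ) * q1 + q2 := by exact_mod_cast hu2
      have h3 : ((d : ℤ)) ∣ (v : ℤ) * q1 + q2 := by exact_mod_cast hv2
      have h4 : ((d : ℤ)) ∣ ((v : ℤ) - u) * q1 := by
        have := dvd_sub h3 h2
        have e : (v : ℤ) * q1 + q2 - (u * q1 + q2) = (v - u) * q1 := by ring
        rwa [e] at this
      have h5 : IsCoprime (d : ℤ) (q1 : ℤ) := Nat.isCoprime_iff_coprime.2 hcop
      exact (Int.modEq_iff_dvd).2 (h5.dvd_of_dvd_mul_right h4)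
    have h2 : u % d = v % d := by
      have := h1
      exact_mod_cast this
    calc u = d * (u / d) + u % d := (Nat.div_add_mod u d).symm
      _ = d * (v / d) + v % d := by rw [huv, h2]
      _ = v := Nat.div_add_mod v d
  have hmap : ∀ u ∈ ((Icc 1 U).filter (fun u => d ∣ u * q1 + q2) : Finset ℕ), u / d ∈ range (U / d + 1) := by
    intro u hu
    rw [mem_filter, mem_Icc] at hu
    rw [mem_range]
    exact Nat.lt_succ_of_le (Nat.div_le_div_right hu.1.2)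
  have := card_le_card_of_injOn _ hmap hinj
  rwa [card_range] at this

/-- a multiplier `u` for which the denominator has no divisor in `D` -/
lemma exists_u {q1 q2 : ℕ} (h : Nat.Coprime q1 q2) (hq2 : 0 < q2) (U : ℕ) (D : Finset ℕ) (M : ℕ) (hD0 : ∀ d ∈ D, 0 < d)
    (hM : ∀ u ≤ U, u * q1 + q2 ≤ M)
    (hsum : ∑ d ∈ D.filter (fun d => d ≤ M), (((U : ℝ) / d) + 1) < U) :
    ∃ u, 1 ≤ u ∧ u ≤ U ∧ ∀ d ∈ D, ¬ d ∣ u * q1 + q2 := by
  classical
  by_contra hcon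
  push Not at hcon
  have hsub : Icc 1 U ⊆ (D.filter (fun d => d ≤ M)).biUnion
      (fun d => (Icc 1 U).filter (fun u => d ∣ u * q1 + q2)) := by
    intro u hu
    have hu' := mem_Icc.1 hu
    obtain ⟨d, hd, hdu⟩ := hcon u hu'.1 hu'.2
    rw [mem_biUnion]
    refine ⟨d, mem_filter.2 ⟨hd, ?_⟩, mem_filter.2 ⟨hu, hdu⟩⟩
    exact (Nat.le_of_dvd (by omega) hdu).trans (hM u hu'.2)
  have h1 := card_le_card hsub
  rw [Nat.card_Icc, Nat.add_sub_cancel] at h1
  have h2 : ((U : ℕ) : ℝ) ≤ ∑ d ∈ D.filter (fun d => d ≤ M), (((U : ℝ) / d) + 1) := by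
    calc ((U : ℕ) : ℝ) ≤ (((D.filter (fun d => d ≤ M)).biUnion
          (fun d => (Icc 1 U).filter (fun u => d ∣ u * q1 + q2))).card : ℝ) := by exact_mod_cast h1
      _ ≤ ((∑ d ∈ D.filter (fun d => d ≤ M), ((Icc 1 U).filter (fun u => d ∣ u * q1 + q2)).card : ℕ) : ℝ) := by
          exact_mod_cast card_biUnion_le
      _ = ∑ d ∈ D.filter (fun d => d ≤ M), (((Icc 1 U).filter (fun u => d ∣ u * q1 + q2)).card : ℝ) := by
          push_cast
          rfl
      _ ≤ _ := by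
          refine sum_le_sum fun d hd => ?_
          have hd0 := hD0 d (mem_filter.1 hd).1
          have h3 := card_dvd_le h hd0 U
          have h4 : (((U / d : ℕ)) : ℝ) ≤ (U : ℝ) / d := Nat.cast_div_le
          calc (((Icc 1 U).filter (fun u => d ∣ u * q1 + q2)).card : ℝ) ≤ ((U / d + 1 : ℕ) : ℝ) := by exact_mod_cast h3
            _ = (((U / d : ℕ)) : ℝ) + 1 := by push_cast; rfl
            _ ≤ _ := by linarith
  linarith

/-- the sum of the reciprocals of the square roots of the members of a sparse set -/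
lemma sum_sqrt_le (D : Finset ℕ) (hD : ∀ d ∈ D, 1 ≤ d ∧ ((D.filter (fun e => e ≤ d)).card) ^ 4 ≤ d) :
    ∑ d ∈ D, (1 : ℝ) / Real.sqrt d ≤ ∑ k ∈ range D.card, (1 : ℝ) / ((k : ℝ) + 1) ^ 2 := by
  classical
  induction D using Finset.induction_on_max with
  | empty => simp
  | insert m s hm ih =>
    have hms : m ∉ s := fun h => lt_irrefl _ (hm m h)
    rw [sum_insert hms, card_insert_of_notMem hms, sum_range_succ, add_comm]
    have h1 := ih (fun d hd => by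
      obtain ⟨h1, h2⟩ := hD d (mem_insert_of_mem hd)
      refine ⟨h1, le_trans (Nat.pow_le_pow_left (card_le_card ?_) 4) h2⟩
      exact filter_subset_filter _ (subset_insert m s))
    obtain ⟨h2, h3⟩ := hD m (mem_insert_self m s)
    have h4 : (insert m s).filter (fun e => e ≤ m) = insert m s := by
      refine filter_true_of_mem fun e he => ?_
      rcases mem_insert.1 he with h | h
      · exact h.le
      · exact (hm e h).le
    rw [h4, card_insert_of_notMem hms] at h3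
    have h5 : ((s.card : ℝ) + 1) ^ 2 ≤ Real.sqrt m := by
      apply Real.le_sqrt_of_sq_le
      rw [← pow_mul]
      exact_mod_cast h3
    have h6 : (1 : ℝ) / Real.sqrt m ≤ 1 / ((s.card : ℝ) + 1) ^ 2 :=
      one_div_le_one_div_of_le (by positivity) h5
    linarith

lemma sum_sq_le (n : ℕ) : ∑ k ∈ range n, (1 : ℝ) / ((k : ℝ) + 1) ^ 2 ≤ 2 := by
  have key : ∀ n : ℕ, 1 ≤ n → ∑ k ∈ range n, (1 : ℝ) / ((k : ℝ) + 1) ^ 2 ≤ 2 - 1 / (n : ℝ) := by
    intro n hn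
    induction n, hn using Nat.le_induction with
    | base => norm_num
    | succ n hn ih =>
      rw [sum_range_succ]
      have hn0 : (0 : ℝ) < n := by exact_mod_cast hn
      have h1 : (1 : ℝ) / ((n : ℝ) + 1) ^ 2 ≤ 1 / n - 1 / ((n + 1 : ℕ) : ℝ) := by
        push_cast
        rw [div_sub_div _ _ hn0.ne' (by positivity), div_le_div_iff₀ (by positivity) (by positivity)]
        nlinarith
      linarith
  rcases Nat.eq_zero_or_pos n with rfl | hn
  · simp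
  · have h1 := key n hn
    have : (0 : ℝ) ≤ 1 / (n : ℝ) := by positivity
    linarith

/-- the sum of the reciprocals of the members of a sparse set of large integers -/
lemma sum_inv_le (D : Finset ℕ) {B ρ : ℝ} (hρ : ρ ≤ 1 / 4) (hB : 1 ≤ B) (hDB : ∀ d ∈ D, B < (d : ℝ))
    (hD : ∀ y : ℝ, 1 ≤ y → ((D.filter (fun d : ℕ => (d : ℝ) ≤ y)).card : ℝ) ≤ y ^ ρ) :
    ∑ d ∈ D, (1 : ℝ) / d ≤ 2 / Real.sqrt B := by
  have h1 : ∀ d ∈ D, 1 ≤ d ∧ ((D.filter (fun e => e ≤ d)).card) ^ 4 ≤ d := by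
    intro d hd
    have hd1 : (1 : ℝ) < d := hB.trans_lt (hDB d hd)
    refine ⟨by exact_mod_cast hd1.le, ?_⟩
    have h2 := hD d hd1.le
    have h3 : ((D.filter (fun e : ℕ => (e : ℝ) ≤ (d : ℝ))).card : ℝ) = ((D.filter (fun e => e ≤ d)).card : ℝ) := by
      congr 2
      ext e
      simp
    rw [h3] at h2
    have h4 : (d : ℝ) ^ ρ ≤ (d : ℝ) ^ (1 / 4 : ℝ) := Real.rpow_le_rpow_of_exponent_le hd1.le hρ
    have h5 : (((D.filter (fun e => e ≤ d)).card : ℝ)) ^ 4 ≤ ((d : ℝ) ^ (1 / 4 : ℝ)) ^ 4 :=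
      pow_le_pow_left₀ (Nat.cast_nonneg _) (h2.trans h4) 4
    rw [← Real.rpow_natCast ((d : ℝ) ^ (1 / 4 : ℝ)) 4, ← Real.rpow_mul (by linarith)] at h5
    norm_num at h5
    exact_mod_cast h5
  have h2 := (sum_sqrt_le D h1).trans (sum_sq_le _)
  have hB0 : 0 < Real.sqrt B := Real.sqrt_pos.2 (by linarith)
  calc ∑ d ∈ D, (1 : ℝ) / d ≤ ∑ d ∈ D, (1 / Real.sqrt B) * ((1 : ℝ) / Real.sqrt d) := by
        refine sum_le_sum fun d hd => ?_
        have hd1 : B < d := hDB d hd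
        have hd0 : (0 : ℝ) < d := by linarith
        have h3 : Real.sqrt B ≤ Real.sqrt d := Real.sqrt_le_sqrt hd1.le
        have h4 : Real.sqrt d * Real.sqrt d = d := Real.mul_self_sqrt hd0.le
        have h5 : 0 < Real.sqrt d := Real.sqrt_pos.2 hd0
        rw [div_mul_div_comm, one_mul]
        apply one_div_le_one_div_of_le (by positivity)
        calc Real.sqrt B * Real.sqrt d ≤ Real.sqrt d * Real.sqrt d := mul_le_mul_of_nonneg_right h3 h5.le
          _ = d := h4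
    _ = (1 / Real.sqrt B) * ∑ d ∈ D, ((1 : ℝ) / Real.sqrt d) := by rw [mul_sum]
    _ ≤ (1 / Real.sqrt B) * 2 := mul_le_mul_of_nonneg_left h2 (by positivity)
    _ = 2 / Real.sqrt B := by ring

/-! ## The approximations -/

/-- the neighbour of a reduced fraction, with a large denominator -/
lemma exists_neighbour {α η : ℝ} {a2 : ℤ} {q2 k : ℕ} (hq2 : 0 < q2) (hk : 1 ≤ k) (hcop : IsCoprime a2 (q2 : ℤ))
    (hη : |(q2 : ℝ) * α - a2| ≤ η) (hkη : k * η ≤ 1 / q2) :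
    ∃ (q1 : ℕ) (a1 : ℤ), k * q2 ≤ q1 ∧ q1 ≤ (k + 1) * q2 ∧ (q1 : ℤ) * a2 - q2 * a1 = 1 ∧
      |(q1 : ℝ) * α - a1| ≤ 3 / q2 := by
  obtain ⟨s, t, hst⟩ := hcop
  have hq2z : (0 : ℤ) < q2 := by exact_mod_cast hq2
  have hq2r : (0 : ℝ) < q2 := by exact_mod_cast hq2
  -- `s a2 ≡ 1`
  obtain ⟨r, hr⟩ : ∃ r : ℤ, r = s % q2 := ⟨_, rfl⟩
  have hr0 : 0 ≤ r := by rw [hr]; exact Int.emod_nonneg _ hq2z.ne'
  have hr1 : r < q2 := by rw [hr]; exact Int.emod_lt_of_pos _ hq2z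
  obtain ⟨w, hw⟩ : ∃ w : ℤ, s = r + q2 * w := ⟨s / q2, by rw [hr]; exact (Int.emod_add_mul_ediv s q2).symm⟩
  obtain ⟨rn, hrn⟩ := Int.eq_ofNat_of_zero_le hr0
  refine ⟨rn + k * q2, -(w * a2 + t) + k * a2, by omega, ?_, ?_, ?_⟩
  · have : (rn : ℤ) < q2 := by rw [← hrn]; exact hr1
    have h2 : rn < q2 := by exact_mod_cast this
    nlinarith
  · have h1 : ((rn + k * q2 : ℕ) : ℤ) = r + k * q2 := by push_cast; rw [hrn]
    rw [h1]
    rw [hw] at hst
    linear_combination hst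
  · have hdet : (((rn + k * q2 : ℕ) : ℝ)) * a2 - q2 * ((-(w * a2 + t) + k * a2 : ℤ) : ℝ) = 1 := by
      have h1 : ((rn + k * q2 : ℕ) : ℤ) = r + k * q2 := by push_cast; rw [hrn]
      have h2 : ((rn + k * q2 : ℕ) : ℤ) * a2 - q2 * (-(w * a2 + t) + k * a2) = 1 := by
        rw [h1]
        rw [hw] at hst
        linear_combination hst
      exact_mod_cast h2
    obtain ⟨Q, hQ⟩ : ∃ Q : ℝ, Q = ((rn + k * q2 : ℕ) : ℝ) := ⟨_, rfl⟩
    obtain ⟨a1, ha1⟩ : ∃ a1 : ℝ, a1 = ((-(w * a2 + t) + k * a2 : ℤ) : ℝ) := ⟨_, rfl⟩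
    rw [← hQ, ← ha1] at hdet
    rw [← hQ, ← ha1]
    have hQ0 : 0 ≤ Q := by rw [hQ]; exact Nat.cast_nonneg _
    have hQ1 : Q ≤ (k + 1) * q2 := by
      have : (rn : ℤ) < q2 := by rw [← hrn]; exact hr1
      have h2 : rn < q2 := by exact_mod_cast this
      have h3 : rn + k * q2 ≤ (k + 1) * q2 := by nlinarith
      rw [hQ]
      exact_mod_cast h3
    have hη0 : 0 ≤ η := (abs_nonneg _).trans hη
    have e : (q2 : ℝ) * (Q * α - a1) = Q * (q2 * α - a2) + 1 := by linear_combination hdet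
    have h1 : (q2 : ℝ) * |Q * α - a1| ≤ Q * η + 1 := by
      calc (q2 : ℝ) * |Q * α - a1| = |(q2 : ℝ) * (Q * α - a1)| := by rw [abs_mul, abs_of_pos hq2r]
        _ = |Q * (q2 * α - a2) + 1| := by rw [e]
        _ ≤ |Q * (q2 * α - a2)| + |(1 : ℝ)| := abs_add_le _ _
        _ = Q * |q2 * α - a2| + 1 := by rw [abs_mul, abs_of_nonneg hQ0, abs_one]
        _ ≤ Q * η + 1 := by
            have := mul_le_mul_of_nonneg_left hη hQ0
            linarith
    have hk1 : (1 : ℝ) ≤ k := by exact_mod_cast hk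
    have h2 : Q * η ≤ 2 := by
      calc Q * η ≤ ((k + 1) * q2) * η := mul_le_mul_of_nonneg_right hQ1 hη0
        _ ≤ ((2 * k) * q2) * η := by
            apply mul_le_mul_of_nonneg_right _ hη0
            apply mul_le_mul_of_nonneg_right _ hq2r.le
            linarith
        _ = 2 * (q2 * (k * η)) := by ring
        _ ≤ 2 * (q2 * (1 / q2)) := by
            apply mul_le_mul_of_nonneg_left _ (by norm_num)
            exact mul_le_mul_of_nonneg_left hkη hq2r.le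
        _ = 2 := by
            field_simp
    rw [le_div_iff₀ hq2r]
    linarith

/-- the members of the family -/
lemma family {α η : ℝ} {a2 : ℤ} {q2 k : ℕ} (hq2 : 0 < q2) (hk : 1 ≤ k) (hcop : IsCoprime a2 (q2 : ℤ))
    (hη : |(q2 : ℝ) * α - a2| ≤ η) (hkη : k * η ≤ 1 / q2) :
    ∃ q1 : ℕ, Nat.Coprime q1 q2 ∧ k * q2 ≤ q1 ∧ q1 ≤ (k + 1) * q2 ∧
      ∀ u U : ℕ, 1 ≤ u → u ≤ U → ∃ p : ℤ, IsCoprime p ((u * q1 + q2 : ℕ) : ℤ) ∧
        |((u * q1 + q2 : ℕ) : ℝ) * α - p| ≤ 4 * U / q2 := by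
  obtain ⟨q1, a1, h1, h2, h3, h4⟩ := exists_neighbour hq2 hk hcop hη hkη
  have hq2r : (0 : ℝ) < q2 := by exact_mod_cast hq2
  refine ⟨q1, ?_, h1, h2, fun u U hu hU => ⟨u * a1 + a2, ?_, ?_⟩⟩
  · rw [← Nat.isCoprime_iff_coprime]
    exact ⟨a2, -a1, by linear_combination h3⟩
  · refine ⟨q1, -a1, ?_⟩
    push_cast
    linear_combination h3
  · have hη0 : 0 ≤ η := (abs_nonneg _).trans hη
    have hk1 : (1 : ℝ) ≤ k := by exact_mod_cast hk
    have h5 : η ≤ 1 / q2 := by nlinarith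
    have hu1 : (1 : ℝ) ≤ u := by exact_mod_cast hu
    have hU1 : (u : ℝ) ≤ U := by exact_mod_cast hU
    have e : ((u * q1 + q2 : ℕ) : ℝ) * α - ((u * a1 + a2 : ℤ) : ℝ) = u * (q1 * α - a1) + (q2 * α - a2) := by
      push_cast
      ring
    rw [e]
    calc |(u : ℝ) * (q1 * α - a1) + (q2 * α - a2)| ≤ |(u : ℝ) * (q1 * α - a1)| + |q2 * α - a2| := abs_add_le _ _
      _ = u * |q1 * α - a1| + |q2 * α - a2| := by rw [abs_mul, abs_of_nonneg (by linarith : (0 : ℝ) ≤ u)]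
      _ ≤ u * (3 / q2) + 1 / q2 := by
          have := mul_le_mul_of_nonneg_left h4 (by linarith : (0 : ℝ) ≤ u)
          linarith
      _ = (3 * u + 1) / q2 := by ring
      _ ≤ 4 * U / q2 := by
          apply div_le_div_of_nonneg_right _ hq2r.le
          linarith

/-! ## Bohr sets are covered by residue classes -/

/-- `‖α n - β‖ ≤ δ` -/
def near (α β δ : ℝ) (n : ℕ) : Prop := ∃ j : ℤ, |α * n - β - j| ≤ δ

/-- the elements `n ≤ x` of a Bohr set that satisfy a condition -/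
def inBohr (P : ℕ → Prop) (x α β δ : ℝ) : Set ℕ := {n : ℕ | 0 < n ∧ (n : ℝ) ≤ x ∧ near α β δ n ∧ P n}

lemma inBohr_finite (P : ℕ → Prop) (x α β δ : ℝ) : (inBohr P x α β δ).Finite := by
  refine (Finset.finite_toSet (Icc 1 ⌊x⌋₊)).subset ?_
  rintro n ⟨h1, h2, -, -⟩
  rw [Finset.mem_coe, mem_Icc]
  exact ⟨h1, Nat.le_floor h2⟩

/-- **The cover.** -/
lemma cover {P : ℕ → Prop} {x α β δ θ K : ℝ} {q : ℕ} {p : ℤ} (hq : 0 < q) (hcop : IsCoprime p (q : ℤ))
    (hθ : |(q : ℝ) * α - p| ≤ θ) (hx : 0 ≤ x) (hδ : 0 ≤ δ) (hK : 0 ≤ K)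
    (hcl : ∀ a : ℤ, {n : ℕ | 0 < n ∧ (n : ℝ) ≤ x ∧ (n : ℤ) ≡ a [ZMOD q] ∧ P n}.Finite ∧
      ({n : ℕ | 0 < n ∧ (n : ℝ) ≤ x ∧ (n : ℤ) ≡ a [ZMOD q] ∧ P n}.ncard : ℝ) ≤ K) :
    ((inBohr P x α β δ).ncard : ℝ) ≤ (2 * (θ * x + q * δ) + 1) * K := by
  classical
  obtain ⟨s, t, hst⟩ := hcop
  have hqr : (0 : ℝ) < q := by exact_mod_cast hq
  have hθ0 : 0 ≤ θ := (abs_nonneg _).trans hθ
  obtain ⟨R, hR⟩ : ∃ R, R = θ * x + q * δ := ⟨_, rfl⟩
  have hR0 : 0 ≤ R := by rw [hR]; positivity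
  obtain ⟨l0, hl0⟩ : ∃ l0 : ℤ, l0 = ⌈(q : ℝ) * β - R⌉ := ⟨_, rfl⟩
  obtain ⟨l1, hl1⟩ : ∃ l1 : ℤ, l1 = ⌊(q : ℝ) * β + R⌋ := ⟨_, rfl⟩
  obtain ⟨S, hS⟩ : ∃ S : ℤ → Set ℕ, S = fun a => {n : ℕ | 0 < n ∧ (n : ℝ) ≤ x ∧ (n : ℤ) ≡ a [ZMOD q] ∧ P n} := ⟨_, rfl⟩
  have hSfin : ∀ a, (S a).Finite := fun a => by rw [hS]; exact (hcl a).1
  have hScard : ∀ a, ((S a).ncard : ℝ) ≤ K := fun a => by rw [hS]; exact (hcl a).2
  have hsub : inBohr P x α β δ ⊆ (((Icc l0 l1).biUnion (fun l => (hSfin (s * l)).toFinset) : Finset ℕ) : Set ℕ) := by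
    rintro n ⟨h1, h2, ⟨j, hj⟩, h4⟩
    rw [Finset.mem_coe, mem_biUnion]
    have hn0 : (0 : ℝ) ≤ n := Nat.cast_nonneg n
    have hdiff : |((p * n - q * j : ℤ) : ℝ) - q * β| ≤ R := by
      have e : ((p * n - q * j : ℤ) : ℝ) - q * β = -((q * α - p) * n) + q * (α * n - β - j) := by
        push_cast
        ring
      rw [e]
      calc |-(((q : ℝ) * α - p) * n) + q * (α * n - β - j)| ≤ |-(((q : ℝ) * α - p) * n)| + |q * (α * n - β - j)| :=
            abs_add_le _ _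
        _ = |(q : ℝ) * α - p| * n + q * |α * n - β - j| := by
            rw [abs_neg, abs_mul, abs_mul, abs_of_nonneg hn0, abs_of_pos hqr]
        _ ≤ θ * x + q * δ := by
            have e1 : |(q : ℝ) * α - p| * n ≤ θ * x := mul_le_mul hθ h2 hn0 hθ0
            have e2 : (q : ℝ) * |α * n - β - j| ≤ q * δ := mul_le_mul_of_nonneg_left hj hqr.le
            linarith
        _ = R := hR.symm
    rw [abs_le] at hdiff
    refine ⟨p * n - q * j, mem_Icc.2 ⟨?_, ?_⟩, ?_⟩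
    · rw [hl0]
      exact Int.ceil_le.2 (by linarith [hdiff.1])
    · rw [hl1]
      exact Int.le_floor.2 (by linarith [hdiff.2])
    · rw [Set.Finite.mem_toFinset, hS]
      refine ⟨h1, h2, ?_, h4⟩
      rw [Int.modEq_iff_dvd]
      refine ⟨-(t * n) - s * j, ?_⟩
      linear_combination (n : ℤ) * hst
  have h1 : ((inBohr P x α β δ).ncard : ℝ) ≤
      (((Icc l0 l1).biUnion (fun l => (hSfin (s * l)).toFinset)).card : ℝ) := by
    have := Set.ncard_le_ncard hsub (Finset.finite_toSet _)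
    rw [Set.ncard_coe_finset] at this
    exact_mod_cast this
  have h2 : (((Icc l0 l1).biUnion (fun l => (hSfin (s * l)).toFinset)).card : ℝ) ≤ ∑ l ∈ Icc l0 l1, K := by
    calc (((Icc l0 l1).biUnion (fun l => (hSfin (s * l)).toFinset)).card : ℝ) ≤
        ((∑ l ∈ Icc l0 l1, ((hSfin (s * l)).toFinset).card : ℕ) : ℝ) := by exact_mod_cast card_biUnion_le
      _ = ∑ l ∈ Icc l0 l1, (((hSfin (s * l)).toFinset).card : ℝ) := by push_cast; rfl
      _ ≤ _ := by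
          refine sum_le_sum fun l _ => ?_
          rw [← Set.ncard_eq_toFinset_card _ (hSfin (s * l))]
          exact hScard _
  rw [sum_const, nsmul_eq_mul] at h2
  have h3 : ((Icc l0 l1).card : ℝ) ≤ 2 * R + 1 := by
    rw [Int.card_Icc]
    rcases le_or_gt (l1 + 1 - l0) 0 with h | h
    · rw [Int.toNat_of_nonpos h]
      push_cast
      linarith
    · have e1 : (((l1 + 1 - l0).toNat : ℕ) : ℝ) = ((l1 + 1 - l0 : ℤ) : ℝ) := by
        have : (((l1 + 1 - l0).toNat : ℕ) : ℤ) = l1 + 1 - l0 := Int.toNat_of_nonneg h.le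
        exact_mod_cast congrArg (fun z : ℤ => (z : ℝ)) this
      rw [e1]
      push_cast
      have e2 : (l1 : ℝ) ≤ q * β + R := by rw [hl1]; exact Int.floor_le _
      have e3 : (q : ℝ) * β - R ≤ l0 := by rw [hl0]; exact Int.le_ceil _
      linarith
  calc ((inBohr P x α β δ).ncard : ℝ) ≤ ((Icc l0 l1).card : ℝ) * K := h1.trans h2
    _ ≤ (2 * R + 1) * K := mul_le_mul_of_nonneg_right h3 hK
    _ = _ := by rw [hR]

/-- **The even elements of a Bohr set are numerous.** -/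
lemma lower {x α β δ θ : ℝ} {q : ℕ} {p : ℤ} (hq : 0 < q) (hcop : IsCoprime p (q : ℤ))
    (hθ : |(q : ℝ) * α - p| ≤ θ) (hx : 4 * q ≤ x) (hδ : δ ≤ 1 / 2) (hqδ : 4 ≤ q * δ) (hθx : θ * x ≤ q * δ / 2) :
    δ * x / 16 ≤ ((inBohr (fun n => 2 ∣ n) x α β δ).ncard : ℝ) := by
  classical
  obtain ⟨s, t, hst⟩ := hcop
  have hqr : (0 : ℝ) < q := by exact_mod_cast hq
  have hqz : (0 : ℤ) < q := by exact_mod_cast hq
  have hθ0 : 0 ≤ θ := (abs_nonneg _).trans hθ
  have hδ0 : 0 < δ := by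
    by_contra hcon
    push Not at hcon
    nlinarith
  obtain ⟨l0, hl0⟩ : ∃ l0 : ℤ, l0 = ⌈(q : ℝ) * β / 2 - q * δ / 4⌉ := ⟨_, rfl⟩
  obtain ⟨l1, hl1⟩ : ∃ l1 : ℤ, l1 = ⌊(q : ℝ) * β / 2 + q * δ / 4⌋ := ⟨_, rfl⟩
  obtain ⟨M, hM⟩ : ∃ M : ℕ, M = ⌊x / (2 * q)⌋₊ := ⟨_, rfl⟩
  -- the elements
  obtain ⟨r, hr⟩ : ∃ r : ℤ → ℤ, r = fun l => (2 * s * l - 1) % (2 * q) + 1 := ⟨_, rfl⟩
  have hr1 : ∀ l, 1 ≤ r l := fun l => by
    rw [hr]
    have := Int.emod_nonneg (2 * s * l - 1) (show (2 * (q : ℤ)) ≠ 0 by positivity)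
    simp only
    linarith
  have hr2 : ∀ l, r l ≤ 2 * q := fun l => by
    rw [hr]
    have := Int.emod_lt_of_pos (2 * s * l - 1) (show (0 : ℤ) < 2 * (q : ℤ) by positivity)
    simp only
    linarith
  have hr3 : ∀ l, (2 * (q : ℤ)) ∣ r l - 2 * s * l := fun l => by
    rw [hr]
    have h := Int.emod_add_mul_ediv (2 * s * l - 1) (2 * q)
    refine ⟨-((2 * s * l - 1) / (2 * q)), ?_⟩
    simp only
    linear_combination h
  obtain ⟨F, hF⟩ : ∃ F : ℤ × ℕ → ℕ, F = fun v => (r v.1 + 2 * q * v.2).toNat := ⟨_, rfl⟩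
  have hFv : ∀ v : ℤ × ℕ, ((F v : ℕ) : ℤ) = r v.1 + 2 * q * v.2 := fun v => by
    rw [hF]
    refine Int.toNat_of_nonneg ?_
    have := hr1 v.1
    positivity
  have hmaps : ∀ v ∈ (Icc l0 l1 ×ˢ range M : Finset (ℤ × ℕ)), F v ∈ inBohr (fun n => 2 ∣ n) x α β δ := by
    intro v hv
    rw [mem_product, mem_Icc, mem_range] at hv
    obtain ⟨⟨hv1, hv2⟩, hv3⟩ := hv
    have hpos : 0 < F v := by
      have h1 := hFv v
      have h2 := hr1 v.1
      have h3 : (0 : ℤ) ≤ 2 * q * v.2 := by positivity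
      have : (0 : ℤ) < (F v : ℕ) := by rw [h1]; linarith
      exact_mod_cast this
    have hle : ((F v : ℕ) : ℝ) ≤ x := by
      have h1 := hFv v
      have h2 := hr2 v.1
      have h3 : ((F v : ℕ) : ℤ) ≤ 2 * q * (v.2 + 1) := by rw [h1]; linarith
      have h4 : (((F v : ℕ)) : ℝ) ≤ 2 * q * (v.2 + 1) := by exact_mod_cast h3
      have h5 : ((v.2 : ℕ) : ℝ) + 1 ≤ M := by exact_mod_cast hv3
      have h6 : (M : ℝ) ≤ x / (2 * q) := by
        rw [hM]
        refine Nat.floor_le ?_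
        have : 0 ≤ x := by linarith
        positivity
      have h7 : 2 * (q : ℝ) * (v.2 + 1) ≤ 2 * q * (x / (2 * q)) := by
        apply mul_le_mul_of_nonneg_left (h5.trans h6) (by positivity)
      have h8 : 2 * (q : ℝ) * (x / (2 * q)) = x := by field_simp
      linarith
    obtain ⟨w, hw⟩ := hr3 v.1
    -- `p n = l + q j`
    have hpn : p * (F v : ℕ) = 2 * v.1 + q * (2 * p * (w + v.2) - 2 * t * v.1) := by
      rw [hFv v]
      have e : r v.1 = 2 * s * v.1 + 2 * q * w := by linarith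
      rw [e]
      linear_combination 2 * v.1 * hst
    refine ⟨hpos, hle, ⟨2 * p * (w + v.2) - 2 * t * v.1, ?_⟩, ?_⟩
    · have e : (q : ℝ) * (α * (F v : ℕ) - β - ((2 * p * (w + v.2) - 2 * t * v.1 : ℤ) : ℝ)) =
          (q * α - p) * (F v : ℕ) + (2 * v.1 - q * β) := by
        have h1 : (p : ℝ) * (F v : ℕ) = 2 * v.1 + q * ((2 * p * (w + v.2) - 2 * t * v.1 : ℤ) : ℝ) := by
          exact_mod_cast congrArg (fun z : ℤ => (z : ℝ)) hpn
        linear_combination h1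
      have h1 : |(q : ℝ) * (α * (F v : ℕ) - β - ((2 * p * (w + v.2) - 2 * t * v.1 : ℤ) : ℝ))| ≤ q * δ := by
        rw [e]
        refine (abs_add_le _ _).trans ?_
        have h2 : |((q : ℝ) * α - p) * (F v : ℕ)| ≤ q * δ / 2 := by
          rw [abs_mul, abs_of_nonneg (Nat.cast_nonneg (F v) : (0 : ℝ) ≤ ((F v : ℕ) : ℝ))]
          exact (mul_le_mul hθ hle (Nat.cast_nonneg _) hθ0).trans hθx
        have h3 : |2 * (v.1 : ℝ) - q * β| ≤ q * δ / 2 := by
          have e1 : (l0 : ℝ) ≤ v.1 := by exact_mod_cast hv1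
          have e2 : (v.1 : ℝ) ≤ l1 := by exact_mod_cast hv2
          have e3 : (q : ℝ) * β / 2 - q * δ / 4 ≤ l0 := by rw [hl0]; exact Int.le_ceil _
          have e4 : (l1 : ℝ) ≤ (q : ℝ) * β / 2 + q * δ / 4 := by rw [hl1]; exact Int.floor_le _
          rw [abs_le]
          constructor <;> linarith
        linarith
      rw [abs_mul, abs_of_pos hqr] at h1
      exact le_of_mul_le_mul_left h1 hqr
    · have h1 : (2 : ℤ) ∣ (F v : ℕ) := by
        rw [hFv v]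
        have e : r v.1 = 2 * s * v.1 + 2 * q * w := by linarith
        rw [e]
        exact ⟨s * v.1 + q * w + q * v.2, by ring⟩
      exact_mod_cast h1
  have hinj : Set.InjOn F ((Icc l0 l1 ×ˢ range M : Finset (ℤ × ℕ)) : Set (ℤ × ℕ)) := by
    intro v hv v' hv' h
    rw [Finset.mem_coe, mem_product, mem_Icc, mem_range] at hv hv'
    have h1 : r v.1 + 2 * q * v.2 = r v'.1 + 2 * q * v'.2 := by
      rw [← hFv, ← hFv, h]
    obtain ⟨w, hw⟩ := hr3 v.1
    obtain ⟨w', hw'⟩ := hr3 v'.1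
    have hdvd : (q : ℤ) ∣ v.1 - v'.1 := by
      have h2 : (q : ℤ) ∣ s * (v.1 - v'.1) := by
        refine ⟨w' + v'.2 - w - v.2, ?_⟩
        have e1 : r v.1 = 2 * s * v.1 + 2 * q * w := by linarith
        have e2 : r v'.1 = 2 * s * v'.1 + 2 * q * w' := by linarith
        rw [e1, e2] at h1
        linarith
      have h3 : IsCoprime (q : ℤ) s := ⟨t, p, by linear_combination hst⟩
      exact h3.dvd_of_dvd_mul_left h2
    have hlt : |v.1 - v'.1| < q := by
      have e1 : (l0 : ℝ) ≤ v.1 := by exact_mod_cast hv.1.1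
      have e2 : (v.1 : ℝ) ≤ l1 := by exact_mod_cast hv.1.2
      have e1' : (l0 : ℝ) ≤ v'.1 := by exact_mod_cast hv'.1.1
      have e2' : (v'.1 : ℝ) ≤ l1 := by exact_mod_cast hv'.1.2
      have e3 : (q : ℝ) * β / 2 - q * δ / 4 ≤ l0 := by rw [hl0]; exact Int.le_ceil _
      have e4 : (l1 : ℝ) ≤ (q : ℝ) * β / 2 + q * δ / 4 := by rw [hl1]; exact Int.floor_le _
      have e5 : (q : ℝ) * δ / 2 < q := by nlinarith
      have h2 : |((v.1 - v'.1 : ℤ) : ℝ)| < q := by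
        push_cast
        rw [abs_lt]
        constructor <;> linarith
      exact_mod_cast h2
    have h4 : v.1 = v'.1 := by
      have := Int.eq_zero_of_abs_lt_dvd hdvd hlt
      linarith
    have h5 : v.2 = v'.2 := by
      rw [h4] at h1
      have h6 : 2 * (q : ℤ) * v.2 = 2 * q * v'.2 := by linarith
      have h7 : (v.2 : ℤ) = v'.2 := mul_left_cancel₀ (show (2 * (q : ℤ)) ≠ 0 by positivity) h6
      exact_mod_cast h7
    exact Prod.ext h4 h5
  have hcard : ((Icc l0 l1 ×ˢ range M : Finset (ℤ × ℕ)).card : ℝ) ≤ ((inBohr (fun n => 2 ∣ n) x α β δ).ncard : ℝ) := by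
    have h1 : ((Icc l0 l1 ×ˢ range M : Finset (ℤ × ℕ)).image F : Set ℕ) ⊆ inBohr (fun n => 2 ∣ n) x α β δ := by
      intro n hn
      rw [Finset.coe_image] at hn
      obtain ⟨v, hv, rfl⟩ := hn
      exact hmaps v hv
    have h2 := Set.ncard_le_ncard h1 (inBohr_finite _ _ _ _ _)
    rw [Set.ncard_coe_finset, card_image_of_injOn hinj] at h2
    exact_mod_cast h2
  rw [card_product, card_range, Nat.cast_mul] at hcard
  have h1 : (q : ℝ) * δ / 4 ≤ ((Icc l0 l1).card : ℝ) := by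
    rw [Int.card_Icc]
    have e1 : ((l1 + 1 - l0 : ℤ) : ℝ) ≤ (((l1 + 1 - l0).toNat : ℕ) : ℝ) := by
      have : l1 + 1 - l0 ≤ (((l1 + 1 - l0).toNat : ℕ) : ℤ) := Int.self_le_toNat _
      exact_mod_cast this
    refine le_trans ?_ e1
    push_cast
    have e2 : (q : ℝ) * β / 2 + q * δ / 4 < l1 + 1 := by rw [hl1]; exact Int.lt_floor_add_one _
    have e3 : (l0 : ℝ) < (q : ℝ) * β / 2 - q * δ / 4 + 1 := by rw [hl0]; exact Int.ceil_lt_add_one _
    linarith
  have h2 : x / (4 * q) ≤ (M : ℝ) := by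
    have e1 : x / (2 * q) < M + 1 := by rw [hM]; exact Nat.lt_floor_add_one _
    have e2 : x / (2 * q) = 2 * (x / (4 * q)) := by
      field_simp
      ring
    have e3 : 1 ≤ x / (4 * q) := by
      rw [le_div_iff₀ (by positivity)]
      linarith
    linarith
  calc δ * x / 16 = ((q : ℝ) * δ / 4) * (x / (4 * q)) := by
        field_simp
        ring
    _ ≤ ((Icc l0 l1).card : ℝ) * M := by
        have : 0 ≤ x := by linarith
        apply mul_le_mul h1 h2 (by positivity) (Nat.cast_nonneg _)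
    _ ≤ _ := hcard

end Pool.Agent.K6.H90.GB
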