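import Pool.Agent.K6.H90.GB.Approx

/-!
# Exceptions in Bohr sets from exceptions in residue classes (helper90)
-/

set_option autoImplicit false

namespace Pool.Agent.K6.H90.GB

open Finset

/-- a good denominator without divisors in `D` -/
lemma denominator {α η : ℝ} {a2 : ℤ} {q2 k U : ℕ} (hq2 : 0 < q2) (hk : 1 ≤ k) (hU : 1 ≤ U) (hcop : IsCoprime a2 (q2 : ℤ))
    (hη : |(q2 : ℝ) * α - a2| ≤ η) (hkη : k * η ≤ 1 / q2) (D : Finset ℕ) (hD0 : ∀ d ∈ D, 0 < d)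
    (hsum : ∑ d ∈ D.filter (fun d => d ≤ 4 * U * k * q2), (((U : ℝ) / d) + 1) < U) :
    ∃ (q : ℕ) (p : ℤ), IsCoprime p (q : ℤ) ∧ k * q2 ≤ q ∧ q ≤ 4 * U * k * q2 ∧ |(q : ℝ) * α - p| ≤ 4 * U / q2 ∧
      ∀ d ∈ D, ¬ d ∣ q := by
  obtain ⟨q1, h1, h2, h3, h4⟩ := family hq2 hk hcop hη hkη
  have hM : ∀ u ≤ U, u * q1 + q2 ≤ 4 * U * k * q2 := by
    intro u hu
    have e1 : u * q1 ≤ U * ((k + 1) * q2) := Nat.mul_le_mul hu h3
    have e2 : U * ((k + 1) * q2) ≤ U * ((2 * k) * q2) :=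
      Nat.mul_le_mul le_rfl (Nat.mul_le_mul (by omega) le_rfl)
    have e3 : q2 ≤ U * k * q2 := by
      calc q2 = 1 * 1 * q2 := by ring
        _ ≤ U * k * q2 := Nat.mul_le_mul (Nat.mul_le_mul hU hk) le_rfl
    calc u * q1 + q2 ≤ U * ((2 * k) * q2) + U * k * q2 := by omega
      _ = 3 * (U * k * q2) := by ring
      _ ≤ 4 * (U * k * q2) := Nat.mul_le_mul (by norm_num) le_rfl
      _ = 4 * U * k * q2 := by ring
  obtain ⟨u, hu1, huU, hud⟩ := exists_u h1 hq2 U D (4 * U * k * q2) hD0 hM hsum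
  obtain ⟨p, hp1, hp2⟩ := h4 u U hu1 huU
  refine ⟨u * q1 + q2, p, hp1, ?_, hM u huU, hp2, hud⟩
  calc k * q2 ≤ q1 := h2
    _ = 1 * q1 := by ring
    _ ≤ u * q1 := Nat.mul_le_mul hu1 le_rfl
    _ ≤ u * q1 + q2 := Nat.le_add_right _ _

/-- the sum for a sparse set of large integers -/
lemma sum_a {D : Finset ℕ} {B ρ : ℝ} {U M : ℕ} (hρ : ρ ≤ 1 / 4) (hB : 64 ≤ B) (hU : 1 ≤ U) (hM1 : 1 ≤ M)
    (hDB : ∀ d ∈ D, B < (d : ℝ))
    (hD : ∀ y : ℝ, 1 ≤ y → ((D.filter (fun d : ℕ => (d : ℝ) ≤ y)).card : ℝ) ≤ y ^ ρ) (hM : (M : ℝ) ^ ρ ≤ U / 4) :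
    ∑ d ∈ D.filter (fun d => d ≤ M), (((U : ℝ) / d) + 1) < U := by
  have hU0 : (0 : ℝ) < U := by exact_mod_cast hU
  have h1 := sum_inv_le D hρ (by linarith) hDB hD
  have h8 : (8 : ℝ) ≤ Real.sqrt B := by
    apply Real.le_sqrt_of_sq_le
    linarith
  have h2 : (2 : ℝ) / Real.sqrt B ≤ 1 / 4 := by
    rw [div_le_div_iff₀ (by linarith) (by norm_num)]
    linarith
  have h3 : ∑ d ∈ D.filter (fun d => d ≤ M), ((U : ℝ) / d) ≤ U * (1 / 4) := by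
    calc ∑ d ∈ D.filter (fun d => d ≤ M), ((U : ℝ) / d) ≤ ∑ d ∈ D, ((U : ℝ) / d) :=
          sum_le_sum_of_subset_of_nonneg (filter_subset _ _) fun d _ _ => by positivity
      _ = U * ∑ d ∈ D, (1 : ℝ) / d := by
          rw [mul_sum]
          exact sum_congr rfl fun d _ => by ring
      _ ≤ U * (1 / 4) := mul_le_mul_of_nonneg_left (h1.trans h2) hU0.le
  have h4 : ((D.filter (fun d => d ≤ M)).card : ℝ) ≤ U / 4 := by
    have h5 := hD M (by exact_mod_cast hM1)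
    have h6 : ((D.filter (fun e : ℕ => (e : ℝ) ≤ (M : ℝ))).card : ℝ) = ((D.filter (fun e => e ≤ M)).card : ℝ) := by
      congr 2
      ext e
      simp
    rw [h6] at h5
    exact h5.trans hM
  rw [sum_add_distrib, sum_const, nsmul_eq_mul, mul_one]
  linarith

/-- the sum for a small set of large integers -/
lemma sum_b {D : Finset ℕ} {B V : ℝ} {U M : ℕ} (hB : 0 < B) (hV : 4 * V ≤ B) (hU : 1 ≤ U)
    (hDB : ∀ d ∈ D, B < (d : ℝ)) (hD : (D.card : ℝ) ≤ V) (hVU : V ≤ U / 4) :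
    ∑ d ∈ D.filter (fun d => d ≤ M), (((U : ℝ) / d) + 1) < U := by
  have hU0 : (0 : ℝ) < U := by exact_mod_cast hU
  have h3 : ∑ d ∈ D.filter (fun d => d ≤ M), ((U : ℝ) / d) ≤ U * (1 / 4) := by
    calc ∑ d ∈ D.filter (fun d => d ≤ M), ((U : ℝ) / d) ≤ ∑ d ∈ D, ((U : ℝ) / d) :=
          sum_le_sum_of_subset_of_nonneg (filter_subset _ _) fun d _ _ => by positivity
      _ ≤ ∑ d ∈ D, ((U : ℝ) / B) := sum_le_sum fun d hd =>
          div_le_div_of_nonneg_left hU0.le hB (hDB d hd).le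
      _ = D.card * ((U : ℝ) / B) := by rw [sum_const, nsmul_eq_mul]
      _ ≤ V * ((U : ℝ) / B) := mul_le_mul_of_nonneg_right hD (by positivity)
      _ = U * (V / B) := by ring
      _ ≤ U * (1 / 4) := by
          apply mul_le_mul_of_nonneg_left _ hU0.le
          rw [div_le_iff₀ hB]
          linarith
  have h4 : ((D.filter (fun d => d ≤ M)).card : ℝ) ≤ U / 4 := by
    have h5 : ((D.filter (fun d => d ≤ M)).card : ℝ) ≤ D.card := by exact_mod_cast card_filter_le _ _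
    exact h5.trans (hD.trans hVU)
  rw [sum_add_distrib, sum_const, nsmul_eq_mul, mul_one]
  linarith

lemma inBohr_mono (P : ℕ → Prop) {x X α β δ : ℝ} (h : x ≤ X) : inBohr P x α β δ ⊆ inBohr P X α β δ :=
  fun _ ⟨h1, h2, h3, h4⟩ => ⟨h1, h2.trans h, h3, h4⟩

/-- **Exceptions in a Bohr set.** -/
lemma assemble {P : ℕ → Prop} {x X α β δ θ : ℝ} {q A : ℕ} {p : ℤ} (hq : 0 < q) (hcop : IsCoprime p (q : ℤ))
    (hθ : |(q : ℝ) * α - p| ≤ θ) (hx : 4 * q ≤ x) (hxX : x ≤ X) (hXx : X ≤ 2 * x) (hδ : δ ≤ 1 / 2) (hqδ : 4 ≤ q * δ)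
    (hθx : θ * X ≤ q * δ / 2) (hl : 160 ≤ Real.log x)
    (hcl : ∀ a : ℤ, {n : ℕ | 0 < n ∧ (n : ℝ) ≤ X ∧ (n : ℤ) ≡ a [ZMOD q] ∧ (2 ∣ n ∧ ¬ P n)}.Finite ∧
      ({n : ℕ | 0 < n ∧ (n : ℝ) ≤ X ∧ (n : ℤ) ≡ a [ZMOD q] ∧ (2 ∣ n ∧ ¬ P n)}.ncard : ℝ) ≤
        X / (q * Real.log X ^ (A + 1))) :
    δ * x / 16 ≤ ((inBohr (fun n => 2 ∣ n) x α β δ).ncard : ℝ) ∧
    ((inBohr (fun n => 2 ∣ n ∧ ¬ P n) x α β δ).ncard : ℝ) ≤
      ((inBohr (fun n => 2 ∣ n) x α β δ).ncard : ℝ) / Real.log x ^ A := by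
  have hqr : (0 : ℝ) < q := by exact_mod_cast hq
  have hx0 : 0 < x := by linarith
  have hX0 : 0 < X := by linarith
  have hδ0 : 0 < δ := by
    by_contra hcon
    push Not at hcon
    nlinarith
  have hlX : Real.log x ≤ Real.log X := Real.log_le_log hx0 hxX
  obtain ⟨l, hldef⟩ : ∃ l, l = Real.log x := ⟨_, rfl⟩
  obtain ⟨L, hLdef⟩ : ∃ L, L = Real.log X := ⟨_, rfl⟩
  rw [← hldef] at hl hlX ⊢
  rw [← hLdef] at hlX hcl
  have hl0 : 0 < l := by linarith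
  have hL0 : 0 < L := by linarith
  have hθ0 : 0 ≤ θ := (abs_nonneg _).trans hθ
  have hc := cover (β := β) hq hcop hθ hX0.le hδ0.le (K := X / (q * L ^ (A + 1))) (by positivity) hcl
  have hlow := lower (β := β) hq hcop hθ hx hδ hqδ ((mul_le_mul_of_nonneg_left hxX hθ0).trans hθx)
  have hmono : ((inBohr (fun n => 2 ∣ n ∧ ¬ P n) x α β δ).ncard : ℝ) ≤
      ((inBohr (fun n => 2 ∣ n ∧ ¬ P n) X α β δ).ncard : ℝ) := by
    exact_mod_cast Set.ncard_le_ncard (inBohr_mono _ hxX) (inBohr_finite _ _ _ _ _)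
  have h1 : (2 * (θ * X + q * δ) + 1) * (X / (q * L ^ (A + 1))) ≤ (5 * (q * δ)) * ((2 * x) / (q * l ^ (A + 1))) := by
    apply mul_le_mul _ _ (by positivity) (by positivity)
    · linarith
    · apply div_le_div₀ (by positivity) hXx (by positivity)
      apply mul_le_mul_of_nonneg_left _ hqr.le
      exact pow_le_pow_left₀ hl0.le hlX _
  have h2 : (5 * (q * δ)) * ((2 * x) / (q * l ^ (A + 1))) = (10 * (δ * x)) / l ^ (A + 1) := by
    field_simp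
    ring
  refine ⟨by linarith, ?_⟩
  calc ((inBohr (fun n => 2 ∣ n ∧ ¬ P n) x α β δ).ncard : ℝ) ≤ (10 * (δ * x)) / l ^ (A + 1) := by
        rw [← h2]
        exact hmono.trans (hc.trans h1)
    _ ≤ (160 * ((inBohr (fun n => 2 ∣ n) x α β δ).ncard : ℝ)) / l ^ (A + 1) := by
        apply div_le_div_of_nonneg_right _ (by positivity)
        linarith
    _ ≤ (l * ((inBohr (fun n => 2 ∣ n) x α β δ).ncard : ℝ)) / l ^ (A + 1) := by
        apply div_le_div_of_nonneg_right _ (by positivity)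
        exact mul_le_mul_of_nonneg_right hl (Nat.cast_nonneg _)
    _ = ((inBohr (fun n => 2 ∣ n) x α β δ).ncard : ℝ) / l ^ A := by
        rw [pow_succ]
        field_simp

end Pool.Agent.K6.H90.GB
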