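import Pool.Agent.K6.H90.GB.Asm

/-!
# Bohr sets of real numbers with good rational approximations (helper90)
-/

set_option autoImplicit false

namespace Pool.Agent.K6.H90.GB

open Finset Filter

/-- few exceptions in all residue classes -/
def ClassFew (P : ℕ → Prop) (A : ℕ) (x : ℝ) (q : ℕ) : Prop := ∀ a : ℤ,
  {n : ℕ | 0 < n ∧ (n : ℝ) ≤ x ∧ (n : ℤ) ≡ a [ZMOD q] ∧ (2 ∣ n ∧ ¬ P n)}.Finite ∧
    ({n : ℕ | 0 < n ∧ (n : ℝ) ≤ x ∧ (n : ℤ) ≡ a [ZMOD q] ∧ (2 ∣ n ∧ ¬ P n)}.ncard : ℝ) ≤ x / (q * Real.log x ^ A)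

/-- The Bohr set has at least `δ x / 16` even members, and few of them are exceptions. -/
def Conc (P : ℕ → Prop) (A : ℕ) (x α β δ : ℝ) : Prop :=
  δ * x / 16 ≤ ((inBohr (fun n => 2 ∣ n) x α β δ).ncard : ℝ) ∧
  ((inBohr (fun n => 2 ∣ n ∧ ¬ P n) x α β δ).ncard : ℝ) ≤
    ((inBohr (fun n => 2 ∣ n) x α β δ).ncard : ℝ) / Real.log x ^ A

/-- The set `D` is so sparse that some member of a family of denominators is not divisible by any member of `D`. -/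
def SumOK (D : Finset ℕ) (x r : ℝ) : Prop := (∀ d ∈ D, 0 < d) ∧
  ∀ U M : ℕ, 1 ≤ U → 1 ≤ M → (M : ℝ) ≤ x → 4 * x ^ r ≤ U → ∑ d ∈ D.filter (fun d => d ≤ M), (((U : ℝ) / d) + 1) < U

lemma ev_rpow {c : ℝ} (hc : 0 < c) (K : ℝ) : ∀ᶠ x : ℝ in atTop, K ≤ x ^ c :=
  (tendsto_rpow_atTop hc).eventually_ge_atTop K

lemma ceil_bounds {x r : ℝ} (h : 1 ≤ x ^ r) : 4 * x ^ r ≤ (⌈4 * x ^ r⌉₊ : ℝ) ∧ (⌈4 * x ^ r⌉₊ : ℝ) ≤ 5 * x ^ r ∧
    1 ≤ ⌈4 * x ^ r⌉₊ := by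
  have h1 : 4 * x ^ r ≤ (⌈4 * x ^ r⌉₊ : ℝ) := Nat.le_ceil _
  have h2 : (⌈4 * x ^ r⌉₊ : ℝ) < 4 * x ^ r + 1 := Nat.ceil_lt_add_one (by linarith)
  refine ⟨h1, by linarith, ?_⟩
  have : (0 : ℝ) < (⌈4 * x ^ r⌉₊ : ℝ) := by linarith
  exact_mod_cast this

/-- **The deterministic theorem.** -/
theorem det (P : ℕ → Prop) (A : ℕ) {τ ρ : ℝ} (hτ1 : τ ≤ 9 / 10) (hρ : 0 < ρ)
    (hρ1 : ρ ≤ 1 / 10)
    (h : ∃ x₀ : ℝ, ∀ x : ℝ, x₀ ≤ x → ∃ D : Finset ℕ, SumOK D x (ρ / 4) ∧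
      ∀ q : ℕ, 1 ≤ q → (q : ℝ) ≤ x ^ (τ - ρ / 4) → (∀ d ∈ D, ¬ d ∣ q) → ClassFew P (A + 1) x q) :
    ∃ x₀ : ℝ, ∀ x : ℝ, x₀ ≤ x → ∀ (α β δ : ℝ) (a : ℤ) (q : ℕ), 0 < q → IsCoprime a (q : ℤ) → (q : ℝ) ≤ x ^ (τ - ρ) →
      |(q : ℝ) * α - a| ≤ x ^ (-(τ - ρ)) → x ^ (1 - τ + 3 * ρ) / q ≤ δ → δ ≤ 1 / 2 → Conc P A x α β δ := by
  obtain ⟨x₁, hx₁⟩ := h
  have hev : ∀ᶠ x : ℝ in atTop, x₁ ≤ x ∧ 1 ≤ x ∧ 160 ≤ Real.log x ∧ 80 ≤ x ^ (ρ / 2) ∧ 4 ≤ x ^ (1 / 10 : ℝ) ∧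
      80 ≤ x ^ (7 * ρ / 4) ∧ 8 ≤ x ^ (1 + 3 * ρ - τ) := by
    filter_upwards [eventually_ge_atTop x₁, eventually_ge_atTop 1, Real.tendsto_log_atTop.eventually_ge_atTop 160,
      ev_rpow (show 0 < ρ / 2 by linarith) 80, ev_rpow (show (0 : ℝ) < 1 / 10 by norm_num) 4,
      ev_rpow (show 0 < 7 * ρ / 4 by linarith) 80, ev_rpow (show 0 < 1 + 3 * ρ - τ by linarith) 8]
      with x a1 a2 a3 a4 a5 a6 a7
    exact ⟨a1, a2, a3, a4, a5, a6, a7⟩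
  obtain ⟨x₀, hx₀⟩ := eventually_atTop.1 hev
  refine ⟨x₀, fun x hx α β δ a q2 hq2 hcop hq2x hη hδ1 hδ2 => ?_⟩
  obtain ⟨b1, b2, b3, b4, b5, b6, b7⟩ := hx₀ x hx
  have hx0 : 0 < x := by linarith
  obtain ⟨D, hD, hcl⟩ := hx₁ x b1
  have hq2r : (0 : ℝ) < q2 := by exact_mod_cast hq2
  have hr1 : 1 ≤ x ^ (ρ / 4) := Real.one_le_rpow b2 (by linarith)
  obtain ⟨u1, u2, u3⟩ := ceil_bounds hr1
  obtain ⟨U, hU⟩ : ∃ U, U = ⌈4 * x ^ (ρ / 4)⌉₊ := ⟨_, rfl⟩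
  rw [← hU] at u1 u2 u3
  obtain ⟨y, hy⟩ : ∃ y, y = x ^ (τ - ρ) := ⟨_, rfl⟩
  have hy0 : 0 < y := by rw [hy]; positivity
  rw [← hy] at hq2x
  obtain ⟨k, hk⟩ : ∃ k, k = ⌊y / q2⌋₊ := ⟨_, rfl⟩
  have hyq : 1 ≤ y / q2 := by
    rw [le_div_iff₀ hq2r]
    linarith
  have hk1 : 1 ≤ k := by
    rw [hk]
    exact Nat.le_floor (by rw [Nat.cast_one]; exact hyq)
  have hk2 : (k : ℝ) ≤ y / q2 := by
    rw [hk]
    exact Nat.floor_le (by linarith)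
  have hk3 : y / q2 / 2 ≤ k := by
    have h1 : y / q2 < k + 1 := by rw [hk]; exact Nat.lt_floor_add_one _
    have h2 : (1 : ℝ) ≤ k := by exact_mod_cast hk1
    linarith
  have hkq : (k : ℝ) * q2 ≤ y := by
    have := (le_div_iff₀ hq2r).1 hk2
    exact this
  have hkq2 : y / 2 ≤ (k : ℝ) * q2 := by
    have := mul_le_mul_of_nonneg_right hk3 hq2r.le
    have e : y / q2 / 2 * q2 = y / 2 := by field_simp
    rwa [e] at this
  have hneg : x ^ (-(τ - ρ)) = 1 / y := by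
    rw [hy, Real.rpow_neg hx0.le, one_div]
  rw [hneg] at hη
  have hkη : (k : ℝ) * (1 / y) ≤ 1 / q2 := by
    rw [mul_one_div, div_le_div_iff₀ hy0 hq2r]
    linarith
  -- the sizes
  have hM : ((4 * U * k * q2 : ℕ) : ℝ) ≤ 20 * x ^ (ρ / 4) * y := by
    push_cast
    calc (4 : ℝ) * U * k * q2 = 4 * U * (k * q2) := by ring
      _ ≤ 4 * (5 * x ^ (ρ / 4)) * y := by
          apply mul_le_mul _ hkq (by positivity) (by positivity)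
          linarith
      _ = 20 * x ^ (ρ / 4) * y := by ring
  have hM2 : 20 * x ^ (ρ / 4) * y ≤ x ^ (τ - ρ / 4) := by
    have e : x ^ (τ - ρ / 4) = x ^ (ρ / 2) * (x ^ (ρ / 4) * y) := by
      rw [hy, ← Real.rpow_add hx0, ← Real.rpow_add hx0]
      congr 1
      ring
    rw [e, mul_assoc]
    apply mul_le_mul_of_nonneg_right _ (by positivity)
    linarith
  have hM3 : 4 * x ^ (τ - ρ / 4) ≤ x := by
    calc 4 * x ^ (τ - ρ / 4) ≤ x ^ (1 / 10 : ℝ) * x ^ (τ - ρ / 4) := mul_le_mul_of_nonneg_right b5 (by positivity)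
      _ = x ^ (1 / 10 + (τ - ρ / 4)) := by rw [← Real.rpow_add hx0]
      _ ≤ x ^ (1 : ℝ) := Real.rpow_le_rpow_of_exponent_le b2 (by linarith)
      _ = x := Real.rpow_one x
  have hxt0 : 0 < x ^ (τ - ρ / 4) := by positivity
  have hM1 : 1 ≤ 4 * U * k * q2 := by
    have : 0 < 4 * U * k * q2 := by positivity
    exact this
  have hsum := hD.2 U (4 * U * k * q2) u3 hM1 (by linarith) u1
  obtain ⟨q, p, hp1, hq1, hq3, hp2, hqD⟩ := denominator hq2 hk1 u3 hcop hη hkη D hD.1 hsum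
  have hq0 : 0 < q := by
    have : 0 < k * q2 := by positivity
    omega
  have hqr : (0 : ℝ) < q := by exact_mod_cast hq0
  have hq1' : y / 2 ≤ q := hkq2.trans (by exact_mod_cast hq1)
  have hq3' : (q : ℝ) ≤ x ^ (τ - ρ / 4) := by
    have : (q : ℝ) ≤ ((4 * U * k * q2 : ℕ) : ℝ) := by exact_mod_cast hq3
    linarith
  have hδ0 : 0 < δ := lt_of_lt_of_le (by positivity) hδ1
  -- `q δ` is large
  obtain ⟨E, hE⟩ : ∃ E, E = x ^ (1 + 2 * ρ) / q2 := ⟨_, rfl⟩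
  have hqδ : E / 2 ≤ q * δ := by
    calc E / 2 = (y / 2) * (x ^ (1 - τ + 3 * ρ) / q2) := by
          rw [hE, hy]
          have e : x ^ (1 + 2 * ρ) = x ^ (τ - ρ) * x ^ (1 - τ + 3 * ρ) := by
            rw [← Real.rpow_add hx0]
            congr 1
            ring
          rw [e]
          ring
      _ ≤ q * δ := by
          apply mul_le_mul hq1' hδ1 (by positivity) hqr.le
  have hE8 : 8 ≤ E := by
    rw [hE, le_div_iff₀ hq2r]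
    calc 8 * (q2 : ℝ) ≤ x ^ (1 + 3 * ρ - τ) * x ^ (τ - ρ) := by
          apply mul_le_mul b7 _ hq2r.le (by positivity)
          rw [← hy]
          exact hq2x
      _ = x ^ (1 + 2 * ρ) := by
          rw [← Real.rpow_add hx0]
          congr 1
          ring
  refine assemble (X := x) hq0 hp1 hp2 (by linarith) le_rfl (by linarith) hδ2 (by linarith) ?_ b3 (hcl q hq0 hq3' hqD)
  -- `θ x ≤ q δ / 2`
  have h1 : 4 * (U : ℝ) / q2 * x ≤ 20 * x ^ (1 + ρ / 4) / q2 := by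
    have e : x ^ (1 + ρ / 4) = x * x ^ (ρ / 4) := by
      rw [Real.rpow_add hx0, Real.rpow_one]
    rw [e, div_mul_eq_mul_div]
    apply div_le_div_of_nonneg_right _ hq2r.le
    calc 4 * (U : ℝ) * x ≤ 4 * (5 * x ^ (ρ / 4)) * x := by
          apply mul_le_mul_of_nonneg_right _ hx0.le
          linarith
      _ = 20 * (x * x ^ (ρ / 4)) := by ring
  have h2 : 20 * x ^ (1 + ρ / 4) / q2 ≤ E / 4 := by
    rw [hE, div_div, div_le_div_iff₀ hq2r (by positivity)]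
    have e : x ^ (1 + 2 * ρ) = x ^ (7 * ρ / 4) * x ^ (1 + ρ / 4) := by
      rw [← Real.rpow_add hx0]
      congr 1
      ring
    have h3 : 80 * x ^ (1 + ρ / 4) ≤ x ^ (1 + 2 * ρ) := by
      rw [e]
      exact mul_le_mul_of_nonneg_right b6 (by positivity)
    calc 20 * x ^ (1 + ρ / 4) * (q2 * 4) = 80 * x ^ (1 + ρ / 4) * q2 := by ring
      _ ≤ x ^ (1 + 2 * ρ) * q2 := mul_le_mul_of_nonneg_right h3 hq2r.le
  linarith

end Pool.Agent.K6.H90.GB
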