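import Pool.Agent.K6.H90.GB.Det

/-!
# Bohr sets of almost every frequency (helper90)
-/

set_option autoImplicit false

namespace Pool.Agent.K6.H90.GB

open Finset Filter MeasureTheory

lemma vol_le {q M : ℕ} (hq : 1 ≤ q) (hM : 1 ≤ M) {θ : ℝ} (hθ : 0 ≤ θ) (hθ1 : θ ≤ 1) :
    volume ({α : ℝ | ∃ p : ℤ, |(q : ℝ) * α - p| ≤ θ} ∩ Set.Icc (-(M : ℝ)) M) ≤ ENNReal.ofReal (10 * M * θ) := by
  have hqr : (1 : ℝ) ≤ q := by exact_mod_cast hq
  have hMr : (1 : ℝ) ≤ M := by exact_mod_cast hM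
  have hq0 : (0 : ℝ) < q := by linarith
  obtain ⟨b, hb⟩ : ∃ b : ℤ, b = (M : ℤ) * q + 1 := ⟨_, rfl⟩
  have hsub : {α : ℝ | ∃ p : ℤ, |(q : ℝ) * α - p| ≤ θ} ∩ Set.Icc (-(M : ℝ)) M ⊆
      ⋃ p ∈ Icc (-b) b, Set.Icc (((p : ℝ) - θ) / q) (((p : ℝ) + θ) / q) := by
    rintro α ⟨⟨p, hp⟩, h1, h2⟩
    rw [abs_le] at hp
    rw [Set.mem_iUnion₂]
    refine ⟨p, ?_, ?_⟩
    · rw [mem_Icc]
      have e1 : (q : ℝ) * α ≤ q * M := mul_le_mul_of_nonneg_left h2 hq0.le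
      have e2 : (q : ℝ) * (-M) ≤ q * α := mul_le_mul_of_nonneg_left h1 hq0.le
      constructor
      · have : (((-b : ℤ)) : ℝ) ≤ p := by
          rw [hb]
          push_cast
          linarith
        exact_mod_cast this
      · have : (p : ℝ) ≤ ((b : ℤ) : ℝ) := by
          rw [hb]
          push_cast
          linarith
        exact_mod_cast this
    · rw [Set.mem_Icc, div_le_iff₀ hq0, le_div_iff₀ hq0]
      constructor <;> linarith
  refine (measure_mono hsub).trans ((measure_biUnion_finset_le _ _).trans ?_)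
  have h1 : ∀ p ∈ Icc (-b) b, volume (Set.Icc (((p : ℝ) - θ) / q) (((p : ℝ) + θ) / q)) = ENNReal.ofReal (2 * θ / q) := by
    intro p _
    rw [Real.volume_Icc]
    congr 1
    ring
  rw [sum_congr rfl h1, sum_const, nsmul_eq_mul, ← ENNReal.ofReal_natCast, ← ENNReal.ofReal_mul (Nat.cast_nonneg _)]
  apply ENNReal.ofReal_le_ofReal
  have hcard : ((Icc (-b) b).card : ℝ) ≤ 5 * (M * q) := by
    rw [Int.card_Icc]
    have hb0 : 0 ≤ b + 1 - -b := by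
      have h0 : (0 : ℤ) ≤ (M : ℤ) * q := by positivity
      rw [hb]
      linarith
    have e : (((b + 1 - -b).toNat : ℕ) : ℝ) = ((b + 1 - -b : ℤ) : ℝ) := by
      have : (((b + 1 - -b).toNat : ℕ) : ℤ) = b + 1 - -b := Int.toNat_of_nonneg hb0
      exact_mod_cast congrArg (fun z : ℤ => (z : ℝ)) this
    rw [e, hb]
    push_cast
    have : 1 ≤ (M : ℝ) * q := by nlinarith
    linarith
  calc ((Icc (-b) b).card : ℝ) * (2 * θ / q) ≤ 5 * (M * q) * (2 * θ / q) :=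
        mul_le_mul_of_nonneg_right hcard (by positivity)
    _ = 10 * M * θ := by
        field_simp
        ring

/-- finitely many denominators -/
lemma vol_fin {I : Finset ℕ} (hI : ∀ q ∈ I, 1 ≤ q) {M : ℕ} (hM : 1 ≤ M) {θ : ℝ} (hθ : 0 ≤ θ) (hθ1 : θ ≤ 1) :
    volume ({α : ℝ | ∃ q ∈ I, ∃ p : ℤ, |(q : ℝ) * α - p| ≤ θ} ∩ Set.Icc (-(M : ℝ)) M) ≤
      ENNReal.ofReal (10 * M * (I.card * θ)) := by
  have hsub : {α : ℝ | ∃ q ∈ I, ∃ p : ℤ, |(q : ℝ) * α - p| ≤ θ} ∩ Set.Icc (-(M : ℝ)) M ⊆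
      ⋃ q ∈ I, ({α : ℝ | ∃ p : ℤ, |(q : ℝ) * α - p| ≤ θ} ∩ Set.Icc (-(M : ℝ)) M) := by
    rintro α ⟨⟨q, hq, h1⟩, h2⟩
    rw [Set.mem_iUnion₂]
    exact ⟨q, hq, h1, h2⟩
  refine (measure_mono hsub).trans ((measure_biUnion_finset_le _ _).trans ?_)
  calc ∑ q ∈ I, volume ({α : ℝ | ∃ p : ℤ, |(q : ℝ) * α - p| ≤ θ} ∩ Set.Icc (-(M : ℝ)) M) ≤
        ∑ q ∈ I, ENNReal.ofReal (10 * M * θ) := sum_le_sum fun q hq => vol_le (hI q hq) hM hθ hθ1
    _ = ENNReal.ofReal (10 * M * (I.card * θ)) := by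
        rw [sum_const, nsmul_eq_mul, ← ENNReal.ofReal_natCast, ← ENNReal.ofReal_mul (Nat.cast_nonneg _)]
        congr 1
        ring

/-- the size conditions -/
structure Big (r : ℝ) (N : ℝ) : Prop where
  one : 2 ≤ N
  log : 320 ≤ Real.log N
  a : 80 ≤ N ^ (1 - 5 * r)
  b : 80 ≤ N ^ (1 - 6 * r)
  b2 : 800 ≤ N ^ (1 - 7 * r)
  c : 8 ≤ N ^ (4 * r)
  d : 128000 ≤ N ^ r
  e : 320 ≤ N ^ (10 * r)

lemma ev_big {r : ℝ} (hr : 0 < r) (hr1 : r ≤ 1 / 16) : ∀ᶠ N : ℝ in atTop, Big r N := by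
  filter_upwards [eventually_ge_atTop 2, Real.tendsto_log_atTop.eventually_ge_atTop 320,
    ev_rpow (show 0 < 1 - 5 * r by linarith) 80, ev_rpow (show 0 < 1 - 6 * r by linarith) 80,
    ev_rpow (show 0 < 1 - 7 * r by linarith) 800, ev_rpow (show 0 < 4 * r by linarith) 8,
    ev_rpow hr 128000, ev_rpow (show 0 < 10 * r by linarith) 320] with N a1 a2 a3 a4 a5 a6 a7 a8
  exact ⟨a1, a2, a3, a4, a5, a6, a7, a8⟩

/-- the denominators up to `N ^ (1 - 4 r)` that are not regular and not divisible by a member of `D` -/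
def Irr (P : ℕ → Prop) (A : ℕ) (D : Finset ℕ) (N Y : ℝ) : Set ℕ :=
  {q : ℕ | 1 ≤ q ∧ (q : ℝ) ≤ Y ∧ (∀ d ∈ D, ¬ d ∣ q) ∧ ¬ ClassFew P A N q}

lemma irr_finite (P : ℕ → Prop) (A : ℕ) (D : Finset ℕ) (N Y : ℝ) : (Irr P A D N Y).Finite := by
  refine (Finset.finite_toSet (Icc 1 ⌊Y⌋₊)).subset ?_
  rintro q ⟨h1, h2, -⟩
  rw [Finset.mem_coe, mem_Icc]
  exact ⟨h1, Nat.le_floor h2⟩

/-- the exceptional frequencies -/
def W1 (P : ℕ → Prop) (A : ℕ) (D : Finset ℕ) (N r : ℝ) : Set ℝ :=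
  {α : ℝ | ∃ q ∈ Irr P A D N (N ^ (1 - 4 * r)), ∃ p : ℤ, |(q : ℝ) * α - p| ≤ 800 * N ^ (-1 + 7 * r)}

/-- the frequencies with an approximation with a small denominator -/
def W2 (N r : ℝ) : Set ℝ :=
  {α : ℝ | ∃ q : ℕ, 1 ≤ q ∧ (q : ℝ) ≤ N ^ (1 - 6 * r) / 40 ∧ ∃ p : ℤ, |(q : ℝ) * α - p| ≤ 40 / N ^ (1 - 5 * r)}

/-- **Good frequencies at one scale.** -/
theorem scale {P : ℕ → Prop} {A : ℕ} {r N : ℝ} (hr : 0 < r) (hr1 : r ≤ 1 / 16) (hN : Big r N) {D : Finset ℕ}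
    (hD : SumOK D N r) {α : ℝ} (h1 : α ∉ W1 P (A + 1) D N r) (h2 : α ∉ W2 N r) {x : ℝ} (hxN : x ≤ N) (hNx : N ≤ 2 * x)
    {β δ : ℝ} (hδ : x ^ (-1 + 16 * r) ≤ δ) (hδ2 : δ ≤ 1 / 2) : Conc P A x α β δ := by
  obtain ⟨c1, c2, c3, c4, c42, c5, c6, c7⟩ := hN
  have hN0 : 0 < N := by linarith
  have hN1 : 1 ≤ N := by linarith
  have hx0 : 0 < x := by linarith
  have hr1' : 1 ≤ N ^ r := by linarith
  obtain ⟨u1, u2, u3⟩ := ceil_bounds hr1'
  obtain ⟨U, hU⟩ : ∃ U, U = ⌈4 * N ^ r⌉₊ := ⟨_, rfl⟩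
  rw [← hU] at u1 u2 u3
  have hU0 : (0 : ℝ) < U := by exact_mod_cast u3
  obtain ⟨V, hV⟩ : ∃ V, V = N ^ (1 - 4 * r) / (4 * U) := ⟨_, rfl⟩
  have hVlow : N ^ (1 - 5 * r) / 20 ≤ V := by
    rw [hV, div_le_div_iff₀ (by norm_num) (by positivity)]
    have e : N ^ (1 - 4 * r) = N ^ (1 - 5 * r) * N ^ r := by
      rw [← Real.rpow_add hN0]
      congr 1
      ring
    rw [e]
    have e2 : 4 * (U : ℝ) ≤ 20 * N ^ r := by linarith
    calc N ^ (1 - 5 * r) * (4 * U) ≤ N ^ (1 - 5 * r) * (20 * N ^ r) := mul_le_mul_of_nonneg_left e2 (by positivity)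
      _ = N ^ (1 - 5 * r) * N ^ r * 20 := by ring
  obtain ⟨Q, hQ⟩ : ∃ Q, Q = ⌊V⌋₊ := ⟨_, rfl⟩
  have hV4 : 4 ≤ V := by linarith
  have hQ0 : 0 < Q := by
    rw [hQ]
    exact Nat.floor_pos.2 (by linarith)
  have hQ1 : (Q : ℝ) ≤ V := by rw [hQ]; exact Nat.floor_le (by linarith)
  have hQ2 : N ^ (1 - 5 * r) / 40 ≤ Q := by
    have e1 : V < Q + 1 := by rw [hQ]; exact Nat.lt_floor_add_one _
    have e2 : (1 : ℝ) ≤ Q := by exact_mod_cast hQ0
    linarith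
  have hQr : (0 : ℝ) < Q := by exact_mod_cast hQ0
  -- Dirichlet
  obtain ⟨t, ht1, ht2⟩ := Real.exists_rat_abs_sub_le_and_den_le α hQ0
  obtain ⟨q2, hq2def⟩ : ∃ q2, q2 = t.den := ⟨_, rfl⟩
  obtain ⟨a2, ha2def⟩ : ∃ a2, a2 = t.num := ⟨_, rfl⟩
  have hq2 : 0 < q2 := by rw [hq2def]; exact t.den_pos
  have hq2r : (0 : ℝ) < q2 := by exact_mod_cast hq2
  have hcop : IsCoprime a2 (q2 : ℤ) := by
    rw [ha2def, hq2def, Int.isCoprime_iff_nat_coprime]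
    simpa using t.reduced
  have hη : |(q2 : ℝ) * α - a2| ≤ 1 / Q := by
    have e1 : (t : ℝ) = a2 / q2 := by
      rw [ha2def, hq2def]
      exact_mod_cast (Rat.num_div_den t).symm
    rw [e1, ← hq2def] at ht1
    have e2 : (q2 : ℝ) * α - a2 = q2 * (α - a2 / q2) := by field_simp
    rw [e2, abs_mul, abs_of_pos hq2r]
    calc (q2 : ℝ) * |α - a2 / q2| ≤ q2 * (1 / ((Q + 1) * q2)) := mul_le_mul_of_nonneg_left ht1 hq2r.le
      _ = 1 / (Q + 1) := by field_simp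
      _ ≤ 1 / Q := one_div_le_one_div_of_le hQr (by linarith)
  have hq2Q : (q2 : ℝ) ≤ Q := by rw [hq2def]; exact_mod_cast ht2
  -- the denominator is not small
  have hq2Z : N ^ (1 - 6 * r) / 40 < q2 := by
    by_contra hcon
    push Not at hcon
    apply h2
    refine ⟨q2, hq2, hcon, a2, hη.trans ?_⟩
    rw [div_le_div_iff₀ hQr (by positivity)]
    linarith
  have hkη : ((1 : ℕ) : ℝ) * (1 / Q) ≤ 1 / q2 := by
    rw [Nat.cast_one, one_mul]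
    exact one_div_le_one_div_of_le hq2r hq2Q
  have hM : ((4 * U * 1 * q2 : ℕ) : ℝ) ≤ N ^ (1 - 4 * r) := by
    push_cast
    calc (4 : ℝ) * U * 1 * q2 ≤ 4 * U * 1 * V := mul_le_mul_of_nonneg_left (hq2Q.trans hQ1) (by positivity)
      _ = N ^ (1 - 4 * r) := by
          rw [hV]
          field_simp
  have hYN : 8 * N ^ (1 - 4 * r) ≤ N := by
    calc 8 * N ^ (1 - 4 * r) ≤ N ^ (4 * r) * N ^ (1 - 4 * r) := mul_le_mul_of_nonneg_right c5 (by positivity)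
      _ = N ^ (1 : ℝ) := by
          rw [← Real.rpow_add hN0]
          congr 1
          ring
      _ = N := Real.rpow_one N
  have hY0 : 0 < N ^ (1 - 4 * r) := by positivity
  have hM1 : 1 ≤ 4 * U * 1 * q2 := by
    have : 0 < 4 * U * 1 * q2 := by positivity
    exact this
  have hsum := hD.2 U (4 * U * 1 * q2) u3 hM1 (by linarith) u1
  obtain ⟨q, p, hp1, hq1, hq3, hp2, hqD⟩ := denominator hq2 le_rfl u3 hcop hη hkη D hD.1 hsum
  have hq1' : (q2 : ℝ) ≤ q := by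
    have : q2 ≤ q := by omega
    exact_mod_cast this
  have hqr : (0 : ℝ) < q := by linarith
  have hq0 : 0 < q := by exact_mod_cast hqr
  have hqY : (q : ℝ) ≤ N ^ (1 - 4 * r) := by
    have : (q : ℝ) ≤ ((4 * U * 1 * q2 : ℕ) : ℝ) := by exact_mod_cast hq3
    linarith
  -- the approximation
  have hθ : 4 * (U : ℝ) / q2 ≤ 800 * N ^ (-1 + 7 * r) := by
    rw [div_le_iff₀ hq2r]
    have e : N ^ r = N ^ (-1 + 7 * r) * N ^ (1 - 6 * r) := by
      rw [← Real.rpow_add hN0]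
      congr 1
      ring
    calc 4 * (U : ℝ) ≤ 20 * N ^ r := by linarith
      _ = 800 * N ^ (-1 + 7 * r) * (N ^ (1 - 6 * r) / 40) := by
          rw [e]
          ring
      _ ≤ 800 * N ^ (-1 + 7 * r) * q2 := mul_le_mul_of_nonneg_left hq2Z.le (by positivity)
  have hreg : ClassFew P (A + 1) N q := by
    by_contra hcon
    exact h1 ⟨q, ⟨hq0, hqY, hqD, hcon⟩, p, hp2.trans hθ⟩
  -- the sizes
  have hδN : N ^ (-1 + 16 * r) ≤ δ := by
    refine le_trans ?_ hδ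
    exact Real.rpow_le_rpow_of_nonpos hx0 hxN (by linarith)
  have hδ0 : 0 < δ := lt_of_lt_of_le (by positivity) hδN
  have hqδ : N ^ (10 * r) / 40 ≤ q * δ := by
    calc N ^ (10 * r) / 40 = (N ^ (1 - 6 * r) / 40) * N ^ (-1 + 16 * r) := by
          have e : N ^ (10 * r) = N ^ (1 - 6 * r) * N ^ (-1 + 16 * r) := by
            rw [← Real.rpow_add hN0]
            congr 1
            ring
          rw [e]
          ring
      _ ≤ q * δ := mul_le_mul (hq2Z.le.trans hq1') hδN (by positivity) hqr.le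
  have hlogx : 160 ≤ Real.log x := by
    have e1 : N / 2 ≤ x := by linarith
    have e2 : Real.log (N / 2) ≤ Real.log x := Real.log_le_log (by positivity) e1
    rw [Real.log_div hN0.ne' (by norm_num)] at e2
    have := Real.log_two_lt_d9
    linarith
  refine assemble (X := N) hq0 hp1 (hp2.trans hθ) (by linarith) hxN hNx hδ2 (by linarith) ?_ hlogx hreg
  have e1 : 800 * N ^ (-1 + 7 * r) * N = 800 * N ^ (7 * r) := by
    have : N ^ (7 * r) = N ^ (-1 + 7 * r) * N ^ (1 : ℝ) := by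
      rw [← Real.rpow_add hN0]
      congr 1
      ring
    rw [this, Real.rpow_one]
    ring
  rw [e1]
  have e2 : 128000 * N ^ (7 * r) ≤ N ^ (10 * r) := by
    have e3 : N ^ (10 * r) = N ^ (3 * r) * N ^ (7 * r) := by
      rw [← Real.rpow_add hN0]
      congr 1
      ring
    rw [e3]
    apply mul_le_mul_of_nonneg_right _ (by positivity)
    exact c6.trans (Real.rpow_le_rpow_of_exponent_le hN1 (by linarith))
  linarith

/-- the measure of the exceptional frequencies at one scale -/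
lemma vol_W {P : ℕ → Prop} {A c : ℕ} {r N : ℝ} (hr : 0 < r) (hr1 : r ≤ 1 / 16) (hN : Big r N) {D : Finset ℕ}
    (hI : ((Irr P A D N (N ^ (1 - 4 * r))).ncard : ℝ) ≤ (N ^ (1 - 4 * r)) ^ 2 * Real.log N ^ c / N)
    {M : ℕ} (hM : 1 ≤ M) :
    volume ((W1 P A D N r ∪ W2 N r) ∩ Set.Icc (-(M : ℝ)) M) ≤
      ENNReal.ofReal (10 * M * (800 * Real.log N ^ c + 1) * N ^ (-r)) := by
  obtain ⟨c1, c2, c3, c4, c42, c5, c6, c7⟩ := hN
  have hN0 : 0 < N := by linarith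
  have hN1 : 1 ≤ N := by linarith
  have hMr : (1 : ℝ) ≤ M := by exact_mod_cast hM
  have hL : 0 ≤ Real.log N := by linarith
  have hLc : 0 ≤ Real.log N ^ c := pow_nonneg hL c
  have k1 : volume (W1 P A D N r ∩ Set.Icc (-(M : ℝ)) M) ≤ ENNReal.ofReal (10 * M * (800 * Real.log N ^ c * N ^ (-r))) := by
    have hθ1 : 800 * N ^ (-1 + 7 * r) ≤ 1 := by
      have e : N ^ (-1 + 7 * r) * N ^ (1 - 7 * r) = 1 := by
        rw [← Real.rpow_add hN0]
        have : -1 + 7 * r + (1 - 7 * r) = 0 := by ring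
        rw [this, Real.rpow_zero]
      have e' : 800 * N ^ (-1 + 7 * r) ≤ N ^ (1 - 7 * r) * N ^ (-1 + 7 * r) :=
        mul_le_mul_of_nonneg_right c42 (by positivity)
      linarith
    have hset : W1 P A D N r = {α : ℝ | ∃ q ∈ (irr_finite P A D N (N ^ (1 - 4 * r))).toFinset, ∃ p : ℤ,
        |(q : ℝ) * α - p| ≤ 800 * N ^ (-1 + 7 * r)} := by
      ext α
      simp only [W1, Set.mem_ofPred_eq, Set.Finite.mem_toFinset]
    rw [hset]
    refine (vol_fin (fun q hq => ((Set.Finite.mem_toFinset _).1 hq).1) hM (by positivity) hθ1).trans ?_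
    apply ENNReal.ofReal_le_ofReal
    apply mul_le_mul_of_nonneg_left _ (by positivity)
    rw [← Set.ncard_eq_toFinset_card _ (irr_finite P A D N (N ^ (1 - 4 * r)))]
    have e1 : (N ^ (1 - 4 * r)) ^ 2 / N * N ^ (-1 + 7 * r) = N ^ (-r) := by
      rw [← Real.rpow_natCast, ← Real.rpow_mul hN0.le]
      conv_lhs => rw [show N ^ ((1 - 4 * r) * ((2 : ℕ) : ℝ)) / N = N ^ ((1 - 4 * r) * ((2 : ℕ) : ℝ)) / N ^ (1 : ℝ) by rw [Real.rpow_one]]
      rw [← Real.rpow_sub hN0, ← Real.rpow_add hN0]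
      congr 1
      push_cast
      ring
    calc ((Irr P A D N (N ^ (1 - 4 * r))).ncard : ℝ) * (800 * N ^ (-1 + 7 * r)) ≤
          ((N ^ (1 - 4 * r)) ^ 2 * Real.log N ^ c / N) * (800 * N ^ (-1 + 7 * r)) :=
          mul_le_mul_of_nonneg_right hI (by positivity)
      _ = 800 * Real.log N ^ c * ((N ^ (1 - 4 * r)) ^ 2 / N * N ^ (-1 + 7 * r)) := by ring
      _ = 800 * Real.log N ^ c * N ^ (-r) := by rw [e1]
  have k2 : volume (W2 N r ∩ Set.Icc (-(M : ℝ)) M) ≤ ENNReal.ofReal (10 * M * N ^ (-r)) := by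
    have hθ1 : 40 / N ^ (1 - 5 * r) ≤ 1 := by
      rw [div_le_one (by positivity)]
      linarith
    have hset : W2 N r ⊆ {α : ℝ | ∃ q ∈ Icc 1 ⌊N ^ (1 - 6 * r) / 40⌋₊, ∃ p : ℤ,
        |(q : ℝ) * α - p| ≤ 40 / N ^ (1 - 5 * r)} := by
      rintro α ⟨q, h1, h2, p, h3⟩
      exact ⟨q, mem_Icc.2 ⟨h1, Nat.le_floor h2⟩, p, h3⟩
    refine (measure_mono (Set.inter_subset_inter_left _ hset)).trans ?_
    refine (vol_fin (fun q hq => (mem_Icc.1 hq).1) hM (by positivity) hθ1).trans ?_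
    apply ENNReal.ofReal_le_ofReal
    apply mul_le_mul_of_nonneg_left _ (by positivity)
    rw [Nat.card_Icc, Nat.add_sub_cancel]
    have e0 : ((⌊N ^ (1 - 6 * r) / 40⌋₊ : ℕ) : ℝ) ≤ N ^ (1 - 6 * r) / 40 := Nat.floor_le (by positivity)
    have e1 : N ^ (1 - 6 * r) = N ^ (-r) * N ^ (1 - 5 * r) := by
      rw [← Real.rpow_add hN0]
      congr 1
      ring
    calc ((⌊N ^ (1 - 6 * r) / 40⌋₊ : ℕ) : ℝ) * (40 / N ^ (1 - 5 * r)) ≤ N ^ (1 - 6 * r) / 40 * (40 / N ^ (1 - 5 * r)) :=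
          mul_le_mul_of_nonneg_right e0 (by positivity)
      _ = N ^ (-r) := by
          have : N ^ (1 - 5 * r) ≠ 0 := by positivity
          rw [e1]
          field_simp
  rw [Set.union_inter_distrib_right]
  refine (measure_union_le _ _).trans ((add_le_add k1 k2).trans ?_)
  rw [← ENNReal.ofReal_add (by positivity) (by positivity)]
  apply ENNReal.ofReal_le_ofReal
  apply le_of_eq
  ring

/-- **Almost every frequency.** -/
theorem metric {P : ℕ → Prop} {A c : ℕ} {r : ℝ} (hr : 0 < r) (hr1 : r ≤ 1 / 16)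
    (h : ∃ x₀ : ℝ, ∀ x : ℝ, x₀ ≤ x → ∃ D : Finset ℕ, SumOK D x r ∧
      ∀ X : ℝ, 1 ≤ X → X ≤ x → ((Irr P (A + 1) D x X).ncard : ℝ) ≤ X ^ 2 * Real.log x ^ c / x) :
    ∀ᵐ α : ℝ, ∃ x₀ : ℝ, ∀ x : ℝ, x₀ ≤ x → ∀ β δ : ℝ, x ^ (-1 + 16 * r) ≤ δ → δ ≤ 1 / 2 → Conc P A x α β δ := by
  obtain ⟨x₀, h⟩ := h
  choose! D hD using h
  obtain ⟨N₁, hN₁⟩ := eventually_atTop.1 (ev_big hr hr1)
  -- the first admissible scale
  obtain ⟨m₀, hm₀⟩ : ∃ m₀ : ℕ, ∀ m : ℕ, m₀ ≤ m → x₀ ≤ (2 : ℝ) ^ m ∧ N₁ ≤ (2 : ℝ) ^ m := by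
    have ht : Tendsto (fun m : ℕ => (2 : ℝ) ^ m) atTop atTop := tendsto_pow_atTop_atTop_of_one_lt (by norm_num)
    exact eventually_atTop.1 ((ht.eventually_ge_atTop x₀).and (ht.eventually_ge_atTop N₁))
  obtain ⟨s, hs⟩ : ∃ s : ℕ → Set ℝ, ∀ m, s m = W1 P (A + 1) (D ((2 : ℝ) ^ (m + m₀))) ((2 : ℝ) ^ (m + m₀)) r ∪
      W2 ((2 : ℝ) ^ (m + m₀)) r := ⟨_, fun m => rfl⟩
  have hmeas : ∀ M : ℕ, 1 ≤ M → ∀ m, volume (s m ∩ Set.Icc (-(M : ℝ)) M) ≤
      ENNReal.ofReal (10 * M * (800 * Real.log ((2 : ℝ) ^ (m + m₀)) ^ c + 1) * ((2 : ℝ) ^ (m + m₀)) ^ (-r)) := by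
    intro M hM m
    obtain ⟨e1, e2⟩ := hm₀ (m + m₀) (by omega)
    have hb := hN₁ _ e2
    rw [hs]
    refine vol_W hr hr1 hb ((hD _ e1).2 _ ?_ ?_) hM
    · exact Real.one_le_rpow (by linarith [hb.one]) (by linarith)
    · calc ((2 : ℝ) ^ (m + m₀)) ^ (1 - 4 * r) ≤ ((2 : ℝ) ^ (m + m₀)) ^ (1 : ℝ) :=
            Real.rpow_le_rpow_of_exponent_le (by linarith [hb.one]) (by linarith)
        _ = (2 : ℝ) ^ (m + m₀) := Real.rpow_one _
  have hsum : ∀ M : ℕ, 1 ≤ M → Summable (fun m : ℕ =>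
      10 * M * (800 * Real.log ((2 : ℝ) ^ (m + m₀)) ^ c + 1) * ((2 : ℝ) ^ (m + m₀)) ^ (-r)) := by
    intro M hM
    obtain ⟨z, hz⟩ : ∃ z : ℝ, z = (2 : ℝ) ^ (-r) := ⟨_, rfl⟩
    have hz0 : 0 < z := by rw [hz]; positivity
    have hz1 : z < 1 := by
      rw [hz]
      exact Real.rpow_lt_one_of_one_lt_of_neg (by norm_num) (by linarith)
    have e1 : ∀ m : ℕ, 10 * M * (800 * Real.log ((2 : ℝ) ^ (m + m₀)) ^ c + 1) * ((2 : ℝ) ^ (m + m₀)) ^ (-r) =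
        8000 * M * Real.log 2 ^ c * (((m + m₀ : ℕ) : ℝ) ^ c * z ^ (m + m₀)) + 10 * M * z ^ (m + m₀) := by
      intro m
      have e2 : ((2 : ℝ) ^ (m + m₀)) ^ (-r) = z ^ (m + m₀) := by
        rw [hz, ← Real.rpow_natCast, ← Real.rpow_mul (by norm_num), mul_comm, Real.rpow_mul (by norm_num),
          Real.rpow_natCast]
      rw [e2, Real.log_pow, mul_pow]
      ring
    simp only [e1]
    have hn : ‖z‖ < 1 := by rwa [Real.norm_of_nonneg hz0.le]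
    have f1 : Summable (fun n : ℕ => ((n : ℕ) : ℝ) ^ c * z ^ n) := summable_pow_mul_geometric_of_norm_lt_one c hn
    have f2 : Summable (fun n : ℕ => z ^ n) := summable_geometric_of_norm_lt_one hn
    exact (((summable_nat_add_iff m₀).2 f1).mul_left _).add (((summable_nat_add_iff m₀).2 f2).mul_left _)
  have hae : ∀ M : ℕ, ∀ᵐ α : ℝ, 1 ≤ M → α ∈ Set.Icc (-(M : ℝ)) M → ∀ᶠ m in atTop, α ∉ s m := by
    intro M
    by_cases hM : 1 ≤ M
    · have h1 : ∑' m, (volume.restrict (Set.Icc (-(M : ℝ)) M)) (s m) ≠ ⊤ := by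
        refine ne_top_of_le_ne_top (hsum M hM).tsum_ofReal_ne_top ?_
        apply ENNReal.tsum_le_tsum
        intro m
        rw [Measure.restrict_apply' measurableSet_Icc]
        exact hmeas M hM m
      have h2 := ae_eventually_notMem h1
      rw [ae_restrict_iff' measurableSet_Icc] at h2
      filter_upwards [h2] with α hα _ using hα
    · exact Eventually.of_forall fun α h => absurd h hM
  filter_upwards [ae_all_iff.2 hae] with α hα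
  obtain ⟨M, hM⟩ := exists_nat_ge |α|
  have hM2 : |α| ≤ ((M + 1 : ℕ) : ℝ) := by push_cast; linarith
  obtain ⟨m₁, hm₁⟩ := eventually_atTop.1 (hα (M + 1) (by omega) (by rw [Set.mem_Icc]; exact abs_le.1 hM2))
  refine ⟨(2 : ℝ) ^ (m₀ + m₁), ?_⟩
  intro x hx β δ hδ hδ2
  have hx1 : 1 ≤ x := (one_le_pow₀ (by norm_num)).trans hx
  obtain ⟨n, hn1, hn2⟩ := exists_nat_pow_near hx1 (show (1 : ℝ) < 2 by norm_num)
  have hn3 : m₀ + m₁ < n + 1 := by
    rw [← pow_lt_pow_iff_right₀ (show (1 : ℝ) < 2 by norm_num)]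
    linarith
  obtain ⟨k, hk⟩ : ∃ k, n + 1 = k + m₀ := ⟨n + 1 - m₀, by omega⟩
  have hk1 : m₁ ≤ k := by omega
  have hnot := hm₁ k hk1
  rw [hs, ← hk] at hnot
  obtain ⟨e1, e2⟩ := hm₀ (n + 1) (by omega)
  rw [Set.mem_union, not_or] at hnot
  refine scale hr hr1 (hN₁ _ e2) (hD _ e1).1 hnot.1 hnot.2 hn2.le ?_ hδ hδ2
  rw [pow_succ]
  linarith

end Pool.Agent.K6.H90.GB
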